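import Mathlib
import Pool.Agent.Lib.MP_6b7756_an.GM.All

set_option autoImplicit false

namespace Pool.Agent.Results.MP_6b7756_an.CompactOpenCenter

/-- The functions `x ↦ ∫ ξ(y) conj ξ(x⁻¹ y) dy`, `ξ ∈ L²(G)`, that is, the elements of
`A(G) ∩ P(G)`. -/
def IsCoef (G : Type) [Group G] [TopologicalSpace G] [IsTopologicalGroup G]
    [LocallyCompactSpace G] [T2Space G] [MeasurableSpace G] [BorelSpace G] (ψ : G → ℂ) : Prop :=
  ∃ ξ : G → ℂ, MeasureTheory.MemLp ξ 2 (MeasureTheory.Measure.haar : MeasureTheory.Measure G) ∧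
    ∀ x : G, ψ x = ∫ y, ξ y * (starRingEnd ℂ) (ξ (x⁻¹ * y))
      ∂(MeasureTheory.Measure.haar : MeasureTheory.Measure G)

/-- The Eberlein property of the reduced Fourier-Stieltjes algebra: every continuous pointwise
limit of elements of `A(G) ∩ P(G)` is a limit of elements of `A(G) ∩ P(G)` uniformly on compact
sets. -/
def Eberlein (G : Type) [Group G] [TopologicalSpace G] [IsTopologicalGroup G]
    [LocallyCompactSpace G] [T2Space G] [MeasurableSpace G] [BorelSpace G] : Prop :=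
  ∀ φ : G → ℂ, Continuous φ → φ ∈ closure {ψ : G → ℂ | IsCoef G ψ} →
    ∀ C : Set G, IsCompact C → ∀ ε : ℝ, 0 < ε → ∃ ψ : G → ℂ, IsCoef G ψ ∧
      ∀ x ∈ C, ‖φ x - ψ x‖ < ε

/-- There is a Hausdorff locally compact group `G` with an open compact central subgroup `K` (in
particular `G` has an amenable open subgroup) such that the reduced Fourier-Stieltjes algebra of
`G` does not have the Eberlein property. -/
theorem result :
    ∃ (G : Type) (_ : Group G) (_ : TopologicalSpace G) (_ : IsTopologicalGroup G)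
      (_ : LocallyCompactSpace G) (_ : T2Space G) (_ : MeasurableSpace G) (_ : BorelSpace G),
      (∃ K : Subgroup G, IsOpen (K : Set G) ∧ IsCompact (K : Set G) ∧ K ≤ Subgroup.center G) ∧
      ¬ Eberlein G := by
  obtain ⟨G, i1, i2, i3, i4, i5, i6, i7, K, h1, h2, h3, φ, h4, h5, C, hC, ε, hε, hno⟩ :=
    Pool.Agent.Lib.MP_6b7756_an.GM.all_group
  refine ⟨G, i1, i2, i3, i4, i5, i6, i7, ⟨K, h1, h2, h3⟩, fun H => hno ?_⟩
  obtain ⟨ψ, ⟨ξ, hξ1, hξ2⟩, hψ⟩ := H φ h4 h5 C hC ε hε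
  refine ⟨ξ, hξ1, fun x hx => ?_⟩
  rw [← hξ2 x]
  exact hψ x hx

end Pool.Agent.Results.MP_6b7756_an.CompactOpenCenter
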