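import Pool.Agent.Lib.MP_6b7756_an.Main

/-!
The reduced Fourier-Stieltjes algebra of a locally compact group which is amenable at infinity
(exact) is an Eberlein algebra.
-/

set_option autoImplicit false

open scoped ComplexOrder ComplexConjugate
open MeasureTheory Pool.Agent.Lib.MP_6b7756_an

namespace Pool.Agent.Results.MP_6b7756_an.ExactGroups

/-- Kernel form of amenability at infinity: for every compact `C ⊆ G` and every `ε > 0` there are
a compact set `L` and a kernel `k : G × G → ℂ` of positive type which vanishes at all `(s, t)`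
with `s⁻¹ t ∉ L` and satisfies `|k (s, t) - 1| ≤ ε` whenever `s⁻¹ t ∈ C`.  Of the kernel it is
only required that the functions `s ↦ k (s, s x)` are Borel measurable (which holds for continuous
kernels). -/
def AmenableAtInfinity (G : Type) [Group G] [TopologicalSpace G] [MeasurableSpace G] : Prop :=
  ∀ C : Set G, IsCompact C → ∀ ε : ℝ, 0 < ε → ∃ (L : Set G) (k : G → G → ℂ),
    IsCompact L ∧ PositiveType k ∧ (∀ x : G, Measurable fun s => k s (s * x)) ∧
      (∀ s t : G, s⁻¹ * t ∉ L → k s t = 0) ∧ ∀ s t : G, s⁻¹ * t ∈ C → ‖k s t - 1‖ ≤ ε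

/-- Let `G` be a locally compact group which is amenable at infinity.  Every continuous function
on `G` which is a pointwise limit of functions `ξ * ξ~` with `ξ ∈ L²(G)` is a limit of such
functions uniformly on compact sets. -/
theorem result (G : Type) [Group G] [TopologicalSpace G] [IsTopologicalGroup G]
    [LocallyCompactSpace G] [T2Space G] [MeasurableSpace G] [BorelSpace G]
    (hG : AmenableAtInfinity G) (φ : G → ℂ) (hφ : Continuous φ)
    (hcl : φ ∈ closure {ψ : G → ℂ | ∃ ξ : G → ℂ,
      MemLp ξ 2 (Measure.haar : Measure G) ∧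
        ∀ x : G, ψ x = ∫ y, ξ y * conj (ξ (x⁻¹ * y)) ∂(Measure.haar : Measure G)})
    (K : Set G) (hK : IsCompact K) (ε : ℝ) (hε : 0 < ε) :
    ∃ ξ : G → ℂ, MemLp ξ 2 (Measure.haar : Measure G) ∧
      ∀ x ∈ K, ‖φ x - ∫ y, ξ y * conj (ξ (x⁻¹ * y)) ∂(Measure.haar : Measure G)‖ < ε := by
  refine main_step hφ hcl ?_ hK hε
  intro C hC e he
  obtain ⟨L, k, hL, hk1, hk2, hk3, hk4⟩ := hG C hC e he
  refine ⟨L, fun a b => k a⁻¹ b⁻¹, hL, hk1.comp_injective inv_injective, ?_, ?_, ?_⟩
  · intro x
    have h1 := (hk2 x).comp measurable_inv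
    have h2 : (fun s => k s (s * x)) ∘ (fun y : G => y⁻¹) = fun y => k y⁻¹ (x⁻¹ * y)⁻¹ := by
      funext y
      simp only [Function.comp_apply, mul_inv_rev, inv_inv]
    rwa [h2] at h1
  · intro a b hab
    apply hk3
    rwa [inv_inv]
  · intro a b hab
    apply hk4
    rwa [inv_inv]

end Pool.Agent.Results.MP_6b7756_an.ExactGroups
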